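import Pool.Agent.H80.Fit.Base

/-!
MP_2d5453_al: a countable soluble 5-Engel group of exponent 8 (derived length at most 3) which is
not a Fitting group.
-/

set_option autoImplicit false

namespace Pool.Agent.Results.MP_2d5453_al.ExponentEight

variable {G : Type} [Group G]

/-- `[x, y] = x⁻¹ y⁻¹ x y` -/
def comm (x y : G) : G := x⁻¹ * y⁻¹ * x * y

/-- `[x, ₖ y]`: `[x, ₀ y] = x`, `[x, ₖ₊₁ y] = [[x, ₖ y], y]` -/
def icomm (x y : G) : ℕ → G
  | 0 => x
  | k + 1 => comm (icomm x y k) y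

/-- The Fitting subgroup: generated by all nilpotent normal subgroups. -/
def Fitt (G : Type) [Group G] : Subgroup G :=
  Subgroup.closure {x | ∃ N : Subgroup G, N.Normal ∧ Group.IsNilpotent N ∧ x ∈ N}

open Pool.Agent.H80.Fit in
theorem result : ∃ (G : Type) (_ : Group G), Countable G ∧ derivedSeries G 3 = ⊥ ∧
    (∀ x : G, x ^ 8 = 1) ∧ (∀ x y : G, icomm x y 5 = 1) ∧ Fitt G ≠ ⊤ ∧
    ∃ K : Subgroup G, K.index = 2 ∧ Fitt G ≤ K ∧
      (∀ x : G, x ∉ K → ¬ Group.IsNilpotent (Subgroup.normalClosure ({x} : Set G))) ∧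
      ∃ t : G, t ∉ K ∧ t ^ 2 = 1 := by
  have hFK : Fitt W.H ≤ W.sg.ker := by
    unfold Fitt
    rw [Subgroup.closure_le]
    rintro x ⟨N, hN, hnil, hx⟩
    exact W.not_nil N hN hnil hx
  have hidx := W.sg_index
  refine ⟨W.H, inferInstance, W.countable_H, W.derived_H, ?_, ?_, ?_, W.sg.ker, hidx, hFK, ?_,
    ⟨W.tt, W.tt_mem⟩, ?_, W.tt_sq⟩
  · intro x
    apply Subtype.ext
    exact W.pow_eight x
  · intro x y
    have key : ∀ n : ℕ, ((icomm x y n : W.H) : W) = (W.C (y : W))^[n] (x : W) := by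
      intro n
      induction n with
      | zero => rfl
      | succ n ih =>
        rw [Function.iterate_succ_apply', ← ih]
        rfl
    apply Subtype.ext
    rw [key]
    exact W.engel x y
  · intro h
    rw [h, top_le_iff] at hFK
    rw [hFK, Subgroup.index_top] at hidx
    exact absurd hidx (by decide)
  · intro x hx hnil
    exact hx (W.not_nil _ inferInstance hnil (Subgroup.subset_normalClosure rfl))
  · intro h
    have h1 : W.sg ⟨W.tt, W.tt_mem⟩ = 1 := h
    rw [W.sg_tt] at h1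
    exact absurd h1 (by decide)

end Pool.Agent.Results.MP_2d5453_al.ExponentEight
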